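import Pool.Agent.H41.PRK.S5
import Pool.Agent.H34.HYP.CTX
import Pool.Agent.H6.HYP.SQI
import Pool.Agent.H2.HYP.CX3
import Pool.Agent.H52.HYP.CX4

/-!
# PRK: CTXY
-/

set_option autoImplicit false

namespace Pool.PRK.CTXY66

open Polynomial Matrix Pool.HYP Pool.TOW Pool.AVS Pool.T1 IsDedekindDomain

theorem sq_mul_nonsq {F : Type} [Field F] [Finite F] (h2 : (2 : F) ≠ 0) {x y : F} (hx : x ≠ 0)
    (hy : y ≠ 0) (h : IsSquare x ↔ IsSquare y) : IsSquare (x * y) := by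
  classical
  have := Fintype.ofFinite F
  by_cases hx' : IsSquare x
  · exact hx'.mul (h.1 hx')
  · have hy' : ¬ IsSquare y := fun h' => hx' (h.2 h')
    rw [← quadraticChar_one_iff_isSquare (mul_ne_zero hx hy), map_mul,
      (quadraticChar_neg_one_iff_not_isSquare).2 hx',
      (quadraticChar_neg_one_iff_not_isSquare).2 hy']
    norm_num

theorem sqmod_iff {k : Type} [Field k] (γ p : k[X]) :
    (∃ s : k[X], γ ∣ p - s ^ 2) ↔ IsSquare (AdjoinRoot.mk γ p) := by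
  constructor
  · rintro ⟨s, hs⟩
    refine ⟨AdjoinRoot.mk γ s, ?_⟩
    rw [← map_mul, ← sq, AdjoinRoot.mk_eq_mk]
    exact hs
  · rintro ⟨x, hx⟩
    obtain ⟨s, rfl⟩ := AdjoinRoot.mk_surjective x
    refine ⟨s, ?_⟩
    rw [← map_mul, ← sq, AdjoinRoot.mk_eq_mk] at hx
    exact hx

theorem crt {k : Type} [Field k] (c : k) (γ : k[X]) (hcop : IsCoprime (X - C c) γ) (P : k[X])
    (h1 : IsSquare (P.eval c)) (h2 : ∃ s : k[X], γ ∣ P - s ^ 2) :
    ∃ t : k[X], (X - C c) * γ ∣ P - t ^ 2 := by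
  obtain ⟨a, ha⟩ := h1
  obtain ⟨b, hb⟩ := h2
  obtain ⟨u, v, huv⟩ := hcop
  refine ⟨C a * (v * γ) + b * (u * (X - C c)), ?_⟩
  apply IsCoprime.mul_dvd ⟨u, v, huv⟩
  · have h3 : (X - C c) ∣ P - C a ^ 2 := by
      rw [dvd_iff_isRoot]
      simp only [IsRoot.def, eval_sub, eval_pow, eval_C]
      rw [ha]
      ring
    obtain ⟨w, hw⟩ := h3
    refine ⟨w + (C a ^ 2 * u * (1 + v * γ) - 2 * C a * v * γ * b * u -
      b ^ 2 * u ^ 2 * (X - C c)), ?_⟩
    linear_combination hw + C a ^ 2 * (1 + v * γ) * (-huv)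
  · obtain ⟨w, hw⟩ := hb
    refine ⟨w + (b ^ 2 * v * (1 + u * (X - C c)) - 2 * b * v * C a * u * (X - C c) -
      C a ^ 2 * v ^ 2 * γ), ?_⟩
    linear_combination hw + b ^ 2 * (1 + u * (X - C c)) * (-huv)

/-- Two polynomials of the same type differ by a square. -/
theorem two {k : Type} [Field k] [Finite k] (h2 : (2 : k) ≠ 0) (c : k) (γ : k[X])
    (hγ : Irreducible γ) (hcop : IsCoprime (X - C c) γ) (e : ZMod 2) (p p0 : k[X])
    (hp : IsCoprime p ((X - C c) * γ)) (hp1 : e = 0 ↔ IsSquare (p.eval c))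
    (hp2 : e = 0 ↔ ∃ s : k[X], γ ∣ p - s ^ 2) (hq : IsCoprime p0 ((X - C c) * γ))
    (hq1 : e = 0 ↔ IsSquare (p0.eval c)) (hq2 : e = 0 ↔ ∃ s : k[X], γ ∣ p0 - s ^ 2) :
    ∃ s : k[X], IsCoprime s ((X - C c) * γ) ∧ (X - C c) * γ ∣ p - p0 * s ^ 2 := by
  have ev : ∀ r : k[X], IsCoprime r ((X - C c) * γ) → r.eval c ≠ 0 := by
    intro r hr h0
    have h3 : (X - C c) ∣ r := dvd_iff_isRoot.2 h0
    have h4 : IsCoprime r (X - C c) := hr.of_mul_right_left
    have h5 := h4.isUnit_of_dvd' h3 dvd_rfl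
    exact Polynomial.not_isUnit_X_sub_C c h5
  have := Fact.mk hγ
  have hfinA : Finite (AdjoinRoot γ) := by
    have : Module.Finite k (AdjoinRoot γ) := (AdjoinRoot.powerBasis hγ.ne_zero).finite
    exact Module.finite_of_finite k
  have h2A : (2 : AdjoinRoot γ) ≠ 0 := by
    intro h
    apply h2
    apply (algebraMap k (AdjoinRoot γ)).injective
    rw [map_zero, map_ofNat]
    exact h
  have mk0 : ∀ r : k[X], IsCoprime r ((X - C c) * γ) → AdjoinRoot.mk γ r ≠ 0 := by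
    intro r hr h0
    rw [AdjoinRoot.mk_eq_zero] at h0
    have h4 : IsCoprime r γ := hr.of_mul_right_right
    exact hγ.not_isUnit (h4.isUnit_of_dvd' h0 dvd_rfl)
  have s1 : IsSquare ((p * p0).eval c) := by
    rw [eval_mul]
    exact sq_mul_nonsq h2 (ev p hp) (ev p0 hq) (hp1.symm.trans hq1)
  have s2 : ∃ s : k[X], γ ∣ p * p0 - s ^ 2 := by
    rw [sqmod_iff, map_mul]
    apply sq_mul_nonsq h2A (mk0 p hp) (mk0 p0 hq)
    rw [← sqmod_iff, ← sqmod_iff]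
    exact hp2.symm.trans hq2
  obtain ⟨t, ht⟩ := crt c γ hcop (p * p0) s1 s2
  obtain ⟨w, z, hwz⟩ := hq
  obtain ⟨m, hm⟩ := ht
  set f := (X - C c) * γ with hf
  have hd : f ∣ p - p0 * (t * w) ^ 2 := by
    refine ⟨p * z * (1 + w * p0) + p0 * w ^ 2 * m, ?_⟩
    linear_combination p * (1 + w * p0) * (-hwz) + p0 * w ^ 2 * hm
  refine ⟨t * w, ?_, hd⟩
  obtain ⟨m', hm'⟩ := hd
  obtain ⟨a, b, hab⟩ := hp
  refine ⟨a * p0 * (t * w), a * m' + b, ?_⟩
  linear_combination hab - a * hm'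

end Pool.PRK.CTXY66

namespace Pool.PRK

open Polynomial Matrix Pool.HYP Pool.TOW Pool.AVS Pool.T1 IsDedekindDomain CTXY66

theorem ctxy : CTXYStmt := by
  classical
  intro k _ _ h2 g c u γ e hg hu hγm hγd hγi G
  have : Fintype k := Fintype.ofFinite k
  have hfm : ((X - C c) * γ).Monic := (monic_X_sub_C c).mul hγm
  have hfd : ((X - C c) * γ).natDegree = 2 * g + 1 := by
    rw [(monic_X_sub_C c).natDegree_mul hγm, natDegree_X_sub_C, hγd]; ring
  have hroot : γ.eval c ≠ 0 := by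
    intro h0
    have h1 : (X - C c) ∣ γ := dvd_iff_isRoot.2 h0
    have h3 := (hγi.dvd_iff.1 h1)
    rcases h3 with h3 | h3
    · exact Polynomial.not_isUnit_X_sub_C c h3
    · have h4 := natDegree_eq_of_degree_eq (degree_eq_degree_of_associated h3)
      rw [natDegree_X_sub_C] at h4
      omega
  have hcop : IsCoprime (X - C c) γ := by
    rw [(Polynomial.irreducible_X_sub_C c).coprime_iff_not_dvd, dvd_iff_isRoot]
    exact hroot
  by_cases hex : ∃ p0 : k[X], IsCoprime p0 ((X - C c) * γ) ∧ (e = 0 ↔ IsSquare (p0.eval c)) ∧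
      (e = 0 ↔ ∃ s : k[X], γ ∣ p0 - s ^ 2)
  swap
  · have hempty : {S : Matrix (Fin (2 * g + 1)) (Fin (2 * g + 1)) k |
        ∃ (a : Matrix (Fin (2 * g + 1)) (Fin (2 * g + 1)) k) (p : k[X]), a.det ≠ 0 ∧
          IsCoprime p ((X - C c) * γ) ∧ (e = 0 ↔ IsSquare (p.eval c)) ∧
          (e = 0 ↔ ∃ s : k[X], γ ∣ p - s ^ 2) ∧
          G = aᵀ * gr 0 (2 * g + 1) ((X - C c) * γ) p * a ∧
          S = u • (aᵀ * gr 1 (2 * g + 1) ((X - C c) * γ) p * a)} = ∅ := by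
      ext S
      simp only [Set.mem_setOf_eq, Set.mem_empty_iff_false, iff_false]
      rintro ⟨a, p, -, h3, h4, h5, -, -⟩
      exact hex ⟨p, h3, h4, h5⟩
    rw [hempty, Set.ncard_empty, mul_zero]
    exact Nat.zero_le _
  obtain ⟨p0, hq, hq1, hq2⟩ := hex
  obtain ⟨s, hs1, hs2, hs3⟩ := CTX34.exists_root h2 c γ hγi (by omega)
  have hcopm : ∀ s : k[X], ∀ p : k[X], (X - C c) * γ ∣ p - p0 * s ^ 2 →
      IsCoprime p ((X - C c) * γ) → IsCoprime s ((X - C c) * γ) := by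
    rintro s p ⟨m, hm⟩ ⟨a, b, hab⟩
    refine ⟨a * p0 * s, a * m + b, ?_⟩
    linear_combination hab - a * hm
  have hdet : (gr 0 (2 * g + 1) ((X - C c) * γ) p0).det ≠ 0 := by
    rw [(gdt k (2 * g + 1) _ hfm hfd).2]
    refine mul_ne_zero (pow_ne_zero _ (neg_ne_zero.2 one_ne_zero)) ?_
    obtain ⟨a, b, hab⟩ := hq
    have h5 : AdjoinRoot.mk ((X - C c) * γ) a * AdjoinRoot.mk ((X - C c) * γ) p0 = 1 := by
      rw [← map_mul, ← map_one (AdjoinRoot.mk ((X - C c) * γ)), AdjoinRoot.mk_eq_mk]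
      refine ⟨-b, ?_⟩
      linear_combination hab
    intro h0
    have h6 := congrArg (Algebra.norm k) h5
    rw [map_mul, h0, mul_zero, map_one] at h6
    exact zero_ne_one h6
  have hsym : (gr 0 (2 * g + 1) ((X - C c) * γ) p0)ᵀ =
      gr 0 (2 * g + 1) ((X - C c) * γ) p0 := by
    ext i j
    simp only [gr, Matrix.transpose_apply, Matrix.of_apply]
    rw [Nat.add_comm (j : ℕ) i]
  -- the stabiliser
  have hmmgr : ∀ kk : ℕ, (CTX34.mm (2 * g + 1) ((X - C c) * γ) s)ᵀ *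
      gr kk (2 * g + 1) ((X - C c) * γ) p0 * CTX34.mm (2 * g + 1) ((X - C c) * γ) s =
      gr kk (2 * g + 1) ((X - C c) * γ) p0 := by
    intro kk
    have hgr : gr kk (2 * g + 1) ((X - C c) * γ) p0 =
        gr 0 (2 * g + 1) ((X - C c) * γ) (X ^ kk * p0) := by
      ext i j
      simp only [gr, of_apply]
      congr 1
      ring
    ext i j
    have h1 : ((CTX34.mm (2 * g + 1) ((X - C c) * γ) s)ᵀ *
        gr kk (2 * g + 1) ((X - C c) * γ) p0 *
        CTX34.mm (2 * g + 1) ((X - C c) * γ) s) i j =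
        vec (2 * g + 1) ((X - C c) * γ) (s * X ^ (i : ℕ)) ⬝ᵥ
          (gr kk (2 * g + 1) ((X - C c) * γ) p0 *ᵥ
            vec (2 * g + 1) ((X - C c) * γ) (s * X ^ (j : ℕ))) := by
      rw [Matrix.mul_assoc, Matrix.mul_apply]
      rfl
    rw [h1, hgr, tau_vec hfm hfd (by omega)]
    show _ = Pool.HYP.tau ((X - C c) * γ) (X ^ ((i : ℕ) + (j : ℕ) + 0) * (X ^ kk * p0))
    refine (tau_eq_of_dvd hfm ?_).symm
    obtain ⟨m, hm⟩ := hs1
    exact ⟨X ^ ((i : ℕ) + (j : ℕ) + kk) * p0 * m, by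
      linear_combination X ^ ((i : ℕ) + (j : ℕ) + kk) * p0 * hm⟩
  have h := CTX34.core h2 (2 * g + 1) ⟨g, rfl⟩ (gr 0 (2 * g + 1) ((X - C c) * γ) p0)
    (gr 1 (2 * g + 1) ((X - C c) * γ) p0) hsym hdet
    (CTX34.mm (2 * g + 1) ((X - C c) * γ) s) (hmmgr 0) (hmmgr 1)
    (fun h => hs2 (CTX34.mm_scalar hfm hfd (by omega) s 1 (by rw [h, one_smul])))
    (fun h => hs3 (CTX34.mm_scalar hfm hfd (by omega) s (-1) (by rw [h, neg_smul, one_smul])))
    (by
      have := cx3 k (2 * g + 1)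
      rwa [Nat.card_eq_fintype_card] at this)
    (cx4 k h2 (2 * g + 1)) G
  rw [Nat.card_eq_fintype_card]
  have hQ : 0 < Fintype.card k := Fintype.card_pos
  have hexp : (2 * g + 1) * (2 * g + 1) =
      (2 * g + 1) * g + (2 * g + 1) * (2 * g + 1 + 1) / 2 := by
    have : (2 * g + 1) * (2 * g + 1 + 1) = ((2 * g + 1) * (g + 1)) * 2 := by ring
    rw [this, Nat.mul_div_cancel _ (by norm_num)]
    ring
  rw [hexp, pow_add, ← mul_assoc] at h
  refine le_trans ?_ (Nat.le_of_mul_le_mul_right h (pow_pos hQ _))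
  apply Nat.mul_le_mul_left
  refine le_trans (Set.ncard_le_ncard (t := (fun S => u • S) ''
    {S : Matrix (Fin (2 * g + 1)) (Fin (2 * g + 1)) k |
      ∃ a : Matrix (Fin (2 * g + 1)) (Fin (2 * g + 1)) k, a.det ≠ 0 ∧
        G = aᵀ * gr 0 (2 * g + 1) ((X - C c) * γ) p0 * a ∧
        S = aᵀ * gr 1 (2 * g + 1) ((X - C c) * γ) p0 * a}) ?_ (Set.toFinite _))
    (Set.ncard_image_le (Set.toFinite _))
  rintro S ⟨a, p, ha, hp, hp1, hp2, hG, hS⟩
  obtain ⟨t, ht1, ht2⟩ := two h2 c γ hγi hcop e p p0 hp hp1 hp2 hq hq1 hq2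
  obtain ⟨b, hb, hb0, hb1⟩ := sqi k (2 * g + 1) ((X - C c) * γ) p0 p t hfm hfd ht1 ht2
  refine ⟨aᵀ * gr 1 (2 * g + 1) ((X - C c) * γ) p * a, ⟨b * a, ?_, ?_, ?_⟩, hS.symm⟩
  · rw [Matrix.det_mul]
    exact mul_ne_zero hb ha
  · rw [hG, hb0, Matrix.transpose_mul]
    simp only [Matrix.mul_assoc]
  · rw [hb1, Matrix.transpose_mul]
    simp only [Matrix.mul_assoc]

end Pool.PRK
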