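import Pool.Agent.H41.PRK.S5
import Pool.Agent.H2.HYP.CX3
import Pool.Agent.H52.HYP.CX4

/-!
# PRK: FBA
-/

set_option autoImplicit false

namespace Pool.PRK.FBA66

open Polynomial Matrix Pool.HYP Pool.TOW Pool.AVS Pool.T1 IsDedekindDomain

open Classical in
/-- The number of the matrices in one of the two classes. -/
theorem half {k : Type} [Field k] [Fintype k] (h2 : (2 : k) ≠ 0) (n : ℕ) (hodd : Odd n)
    (D : k) (hD : D ≠ 0)
    (h3 : {G : Matrix (Fin n) (Fin n) k | Gᵀ = G ∧ G.det = 0}.ncard * Fintype.card k ≤
      n * Fintype.card k ^ (n * (n + 1) / 2)) :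
    (Fintype.card k - n) * Fintype.card k ^ (n * (n + 1) / 2) ≤ 2 * Fintype.card k *
      (Finset.univ.filter fun H : Matrix (Fin n) (Fin n) k =>
        Hᵀ = H ∧ H.det ≠ 0 ∧ IsSquare (D * H.det)).card := by
  set Q := Fintype.card k with hQ
  let NN : Finset (Matrix (Fin n) (Fin n) k) := Finset.univ.filter fun H => Hᵀ = H ∧ H.det ≠ 0
  let NP : Finset (Matrix (Fin n) (Fin n) k) := NN.filter fun H => IsSquare (D * H.det)
  have hNPe : NP = Finset.univ.filter fun H : Matrix (Fin n) (Fin n) k =>
      Hᵀ = H ∧ H.det ≠ 0 ∧ IsSquare (D * H.det) := by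
    ext H
    simp only [NP, NN, Finset.mem_filter, Finset.mem_univ, true_and, and_assoc]
  have hhalf : NN.card ≤ 2 * NP.card := by
    obtain ⟨ν, hν⟩ := FiniteField.exists_nonsquare (F := k) (by
      intro h
      exact h2 (by
        have := ringChar.spec k 2
        exact_mod_cast (this.2 (by rw [h]))))
    have hν0 : ν ≠ 0 := by
      rintro rfl
      exact hν (IsSquare.zero)
    have h6 : (NN.filter fun H => ¬ IsSquare (D * H.det)).card ≤ NP.card := by
      refine Finset.card_le_card_of_injOn (fun H => ν • H) ?_ ?_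
      · intro H hH
        obtain ⟨hH1, hH2⟩ := Finset.mem_filter.1 (Finset.mem_coe.1 hH)
        obtain ⟨-, hH3, hH4⟩ := Finset.mem_filter.1 hH1
        have hdν : (ν • H).det = ν ^ n * H.det := by
          rw [Matrix.det_smul, Fintype.card_fin]
        refine Finset.mem_coe.2 (Finset.mem_filter.2 ⟨Finset.mem_filter.2
          ⟨Finset.mem_univ _, ?_, ?_⟩, ?_⟩)
        · rw [Matrix.transpose_smul, hH3]
        · rw [hdν]
          exact mul_ne_zero (pow_ne_zero _ hν0) hH4
        · rw [hdν]
          obtain ⟨r, hr⟩ := hodd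
          have h7 : IsSquare (ν * (D * H.det)) := by
            have hd0 : D * H.det ≠ 0 := mul_ne_zero hD hH4
            rw [← quadraticChar_one_iff_isSquare (mul_ne_zero hν0 hd0), map_mul,
              quadraticChar_neg_one_iff_not_isSquare.2 hν,
              quadraticChar_neg_one_iff_not_isSquare.2 hH2]
            norm_num
          obtain ⟨z, hz⟩ := h7
          have hνn : ν ^ n = ν * (ν ^ r * ν ^ r) := by
            rw [hr, ← pow_add, ← pow_succ']
            congr 1
            ring
          refine ⟨ν ^ r * z, ?_⟩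
          rw [hνn]
          linear_combination (ν ^ r * ν ^ r) * hz
      · intro H _ H' _ h
        exact smul_right_injective _ hν0 h
    have h7 := Finset.card_filter_add_card_filter_not (s := NN)
      (fun H => IsSquare (D * H.det))
    have h8 : NP.card = (NN.filter fun H => IsSquare (D * H.det)).card := rfl
    omega
  have hall : Q ^ (n * (n + 1) / 2) * Q ≤ NN.card * Q + n * Q ^ (n * (n + 1) / 2) := by
    let SS : Finset (Matrix (Fin n) (Fin n) k) := Finset.univ.filter fun H => Hᵀ = H
    let Z : Finset (Matrix (Fin n) (Fin n) k) :=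
      Finset.univ.filter fun H => Hᵀ = H ∧ H.det = 0
    have hZ : Z.card * Q ≤ n * Q ^ (n * (n + 1) / 2) := by
      have hZe : {G : Matrix (Fin n) (Fin n) k | Gᵀ = G ∧ G.det = 0}.ncard = Z.card := by
        rw [← Set.ncard_coe_finset]
        congr 1
        ext H
        simp [Z]
      rw [hZe] at h3
      exact h3
    have hS : SS.card = NN.card + Z.card := by
      have h7 := Finset.card_filter_add_card_filter_not (s := SS) (fun H => H.det ≠ 0)
      rw [← h7]
      congr 2
      · ext H; simp [SS, NN]
      · ext H; simp [SS, Z]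
    have hS2 : Q ^ (n * (n + 1) / 2) ≤ SS.card := by
      have h8 : Q ^ (n * (n + 1) / 2) = Fintype.card (Sym2 (Fin n) → k) := by
        rw [Fintype.card_fun, Sym2.card, Fintype.card_fin, Nat.choose_two_right,
          Nat.add_sub_cancel, Nat.mul_comm]
      rw [h8, ← Finset.card_univ]
      refine Finset.card_le_card_of_injOn
        (fun x => Matrix.of fun i j => x s(i, j)) ?_ ?_
      · intro x _
        refine Finset.mem_coe.2 (Finset.mem_filter.2 ⟨Finset.mem_univ _, ?_⟩)
        ext i j
        simp only [Matrix.transpose_apply, Matrix.of_apply, Sym2.eq_swap]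
      · intro x _ y _ hxy
        funext z
        induction z using Sym2.ind with
        | _ i j => exact congrFun (congrFun hxy i) j
    calc Q ^ (n * (n + 1) / 2) * Q ≤ SS.card * Q := Nat.mul_le_mul_right _ hS2
      _ = NN.card * Q + Z.card * Q := by rw [hS, Nat.add_mul]
      _ ≤ _ := Nat.add_le_add_left hZ _
  rw [← hNPe]
  have e1 : (Q - n) * Q ^ (n * (n + 1) / 2) ≤ NN.card * Q := by
    rw [Nat.sub_mul]
    have : Q * Q ^ (n * (n + 1) / 2) = Q ^ (n * (n + 1) / 2) * Q := Nat.mul_comm _ _
    omega
  calc (Q - n) * Q ^ (n * (n + 1) / 2) ≤ NN.card * Q := e1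
    _ ≤ (2 * NP.card) * Q := Nat.mul_le_mul_right _ hhalf
    _ = 2 * Q * NP.card := by ring

/-- Lifting of congruences. -/
theorem lift {A : Type} [CommRing A] [Finite A] [IsLocalRing A] (d : A) (n : ℕ)
    (hd : IsLocalRing.maximalIdeal A = Ideal.span {d}) (h2 : IsUnit (2 : A))
    (G G' : Matrix (Fin n) (Fin n) A) (hG : Gᵀ = G) (hG' : G'ᵀ = G') (hu : IsUnit G.det)
    (h : ∀ i j, d ∣ G' i j - G i j) :
    ∃ b : Matrix (Fin n) (Fin n) A, IsUnit b.det ∧ G' = bᵀ * G * b := by
  have hdm : d ∈ IsLocalRing.maximalIdeal A := by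
    rw [hd]
    exact Ideal.mem_span_singleton_self d
  -- nilpotency
  obtain ⟨m0, hm0⟩ : ∃ m : ℕ, d ^ m = 0 := by
    obtain ⟨i, j, hij, heq⟩ := Finite.exists_ne_map_eq_of_infinite (fun n : ℕ => d ^ n)
    wlog hlt : i < j generalizing i j
    · exact this j i hij.symm heq.symm (by omega)
    refine ⟨i, ?_⟩
    have h3 : d ^ i * (1 - d ^ (j - i)) = 0 := by
      rw [mul_sub, mul_one, ← pow_add]
      rw [Nat.add_sub_cancel' hlt.le]
      exact sub_eq_zero.mpr heq
    have h4 : IsUnit (1 - d ^ (j - i)) := by
      by_contra hcon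
      have h5 : (1 - d ^ (j - i)) ∈ IsLocalRing.maximalIdeal A := hcon
      have h6 : d ^ (j - i) ∈ IsLocalRing.maximalIdeal A :=
        Ideal.pow_mem_of_mem _ hdm _ (by omega)
      have h7 := Ideal.add_mem _ h5 h6
      rw [sub_add_cancel] at h7
      exact (IsLocalRing.maximalIdeal.isMaximal A).ne_top ((Ideal.eq_top_iff_one _).mpr h7)
    exact (h4.mul_left_eq_zero).mp h3
  obtain ⟨v, hv⟩ := h2.exists_right_inv
  -- reverse induction
  have key : ∀ t m : ℕ, 1 ≤ m → m0 ≤ m + t → ∀ G G' : Matrix (Fin n) (Fin n) A, Gᵀ = G →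
      G'ᵀ = G' → IsUnit G.det → (∀ i j, d ^ m ∣ G' i j - G i j) →
      ∃ b : Matrix (Fin n) (Fin n) A, IsUnit b.det ∧ G' = bᵀ * G * b := by
    intro t
    induction t with
    | zero =>
      intro m hm hm2 G G' hG hG' hu h
      refine ⟨1, by rw [Matrix.det_one]; exact isUnit_one, ?_⟩
      rw [Matrix.transpose_one, Matrix.one_mul, Matrix.mul_one]
      ext i j
      have h3 : d ^ m = 0 := by
        rw [← Nat.add_sub_cancel' (show m0 ≤ m by omega), pow_add, hm0, zero_mul]
      have h4 := h i j
      rw [h3, zero_dvd_iff, sub_eq_zero] at h4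
      exact h4
    | succ t ih =>
      intro m hm hm2 G G' hG hG' hu h
      set E : Matrix (Fin n) (Fin n) A := G' - G with hE
      have hEs : Eᵀ = E := by rw [hE, Matrix.transpose_sub, hG, hG']
      have hGi : (G⁻¹)ᵀ = G⁻¹ := by rw [Matrix.transpose_nonsing_inv, hG]
      have hGG : G * G⁻¹ = 1 := Matrix.mul_nonsing_inv G hu
      have hGG' : G⁻¹ * G = 1 := Matrix.nonsing_inv_mul G hu
      set b : Matrix (Fin n) (Fin n) A := 1 + v • (G⁻¹ * E) with hb
      have hbt : bᵀ = 1 + v • (E * G⁻¹) := by
        rw [hb, Matrix.transpose_add, Matrix.transpose_one, Matrix.transpose_smul,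
          Matrix.transpose_mul, hEs, hGi]
      have hE' : ∀ i j, d ^ m ∣ E i j := fun i j => h i j
      have hEr : ∀ X : Matrix (Fin n) (Fin n) A, ∀ i j, d ^ m ∣ (X * E) i j := by
        intro X i j
        rw [Matrix.mul_apply]
        exact Finset.dvd_sum fun l _ => Dvd.dvd.mul_left (hE' l j) _
      have hprod : bᵀ * G * b = G' + (v * v) • (E * G⁻¹ * E) := by
        rw [hbt, hb]
        have e1 : (1 + v • (E * G⁻¹)) * G = G + v • E := by
          rw [Matrix.add_mul, Matrix.one_mul, Matrix.smul_mul, Matrix.mul_assoc, hGG',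
            Matrix.mul_one]
        rw [e1, Matrix.add_mul, Matrix.mul_add, Matrix.mul_one, Matrix.mul_add, Matrix.mul_one,
          Matrix.mul_smul, ← Matrix.mul_assoc, hGG, Matrix.one_mul, Matrix.smul_mul,
          Matrix.mul_smul, smul_smul, ← Matrix.mul_assoc]
        have e2 : v • E + v • E = E := by
          rw [← add_smul, ← two_mul, hv, one_smul]
        have e3 : G' = G + E := by rw [hE]; abel
        rw [e3]
        calc G + v • E + (v • E + (v * v) • (E * G⁻¹ * E))
            = G + (v • E + v • E) + (v * v) • (E * G⁻¹ * E) := by abel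
          _ = _ := by rw [e2]
      have hbdet : IsUnit b.det := by
        have h5 : (IsLocalRing.residue A) b.det = 1 := by
          rw [RingHom.map_det]
          have h6 : (IsLocalRing.residue A).mapMatrix b = 1 := by
            ext i j
            rw [RingHom.mapMatrix_apply, Matrix.map_apply, hb, Matrix.add_apply, map_add]
            have h7 : (IsLocalRing.residue A) ((v • (G⁻¹ * E)) i j) = 0 := by
              rw [IsLocalRing.residue_eq_zero_iff, Matrix.smul_apply, smul_eq_mul]
              apply Ideal.mul_mem_left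
              have h8 := hEr G⁻¹ i j
              obtain ⟨w, hw⟩ := h8
              rw [hw]
              apply Ideal.mul_mem_right
              exact Ideal.pow_mem_of_mem _ hdm _ (by omega)
            rw [h7, add_zero, Matrix.one_apply, Matrix.one_apply]
            split_ifs <;> simp
          rw [h6, Matrix.det_one]
        have h9 : IsLocalRing.residue A b.det ≠ 0 := by
          rw [h5]
          exact one_ne_zero
        rwa [Ne, IsLocalRing.residue_eq_zero_iff, IsLocalRing.mem_maximalIdeal,
          mem_nonunits_iff, not_not] at h9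
      obtain ⟨b', hb', hb2⟩ := ih (m + 1) (by omega) (by omega) (bᵀ * G * b) G'
        (by
          rw [Matrix.transpose_mul, Matrix.transpose_mul, Matrix.transpose_transpose, hG,
            Matrix.mul_assoc]) hG'
        (by
          rw [Matrix.det_mul, Matrix.det_mul, Matrix.det_transpose]
          exact (hbdet.mul hu).mul hbdet)
        (by
          intro i j
          have h10 : G' i j - (bᵀ * G * b) i j = -((v * v) * (E * G⁻¹ * E) i j) := by
            rw [hprod, Matrix.add_apply, Matrix.smul_apply, smul_eq_mul]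
            ring
          rw [h10, dvd_neg]
          apply Dvd.dvd.mul_left
          rw [Matrix.mul_apply]
          apply Finset.dvd_sum
          intro l _
          have h11 : d ^ m ∣ (E * G⁻¹) i l := by
            rw [Matrix.mul_apply]
            exact Finset.dvd_sum fun l' _ => Dvd.dvd.mul_right (hE' i l') _
          refine (pow_dvd_pow d (show m + 1 ≤ m + m by omega)).trans ?_
          rw [pow_add]
          exact mul_dvd_mul h11 (hE' l j))
      refine ⟨b * b', ?_, ?_⟩
      · rw [Matrix.det_mul]
        exact hbdet.mul hb'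
      · rw [hb2, Matrix.transpose_mul]
        simp only [Matrix.mul_assoc]
  exact key m0 1 le_rfl (by omega) G G' hG hG' hu (by simpa using h)

theorem gen {A : Type} [CommRing A] [Finite A] [IsLocalRing A] (d : A) (q N : ℕ) (hodd : Odd N)
    (hd : IsLocalRing.maximalIdeal A = Ideal.span {d}) (hA : Nat.card A = q ^ 3)
    (hq : Nat.card (A ⧸ Ideal.span {d}) = q) (h2 : IsUnit (2 : A))
    (G : Matrix (Fin N) (Fin N) A) (hG : Gᵀ = G) (hu : IsUnit G.det) :
    (q - N) * q ^ (3 * (N * (N + 1) / 2)) ≤
      2 * q * {G' : Matrix (Fin N) (Fin N) A | ∃ a : Matrix (Fin N) (Fin N) A, IsUnit a.det ∧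
          G' = aᵀ * G * a}.ncard := by
  classical
  have hsurj : Function.Surjective (IsLocalRing.residue A) := IsLocalRing.residue_surjective
  have hfk : Finite (IsLocalRing.ResidueField A) := Finite.of_surjective _ hsurj
  have : Fintype (IsLocalRing.ResidueField A) := Fintype.ofFinite _
  have : Fintype A := Fintype.ofFinite _
  have hqk : Fintype.card (IsLocalRing.ResidueField A) = q := by
    rw [← Nat.card_eq_fintype_card, ← hq, ← hd]
    rfl
  have hq0 : 0 < q := by
    rw [← hqk]
    exact Fintype.card_pos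
  have h2k : (2 : IsLocalRing.ResidueField A) ≠ 0 := by
    have h3 : (IsLocalRing.residue A) 2 ≠ 0 := by
      rw [Ne, IsLocalRing.residue_eq_zero_iff, IsLocalRing.mem_maximalIdeal,
        mem_nonunits_iff, not_not]
      exact h2
    rwa [map_ofNat] at h3
  have hdvd : ∀ x y : A, IsLocalRing.residue A x = IsLocalRing.residue A y ↔ d ∣ x - y := by
    intro x y
    rw [← sub_eq_zero, ← map_sub, IsLocalRing.residue_eq_zero_iff, hd,
      Ideal.mem_span_singleton]
  have hI : Nat.card (IsLocalRing.maximalIdeal A) = q ^ 2 := by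
    have h3 : Nat.card A = Nat.card (A ⧸ IsLocalRing.maximalIdeal A) *
        Nat.card (IsLocalRing.maximalIdeal A) := by
      rw [Nat.mul_comm]
      exact Submodule.card_eq_card_quotient_mul_card (IsLocalRing.maximalIdeal A)
    have h4 : Nat.card (A ⧸ IsLocalRing.maximalIdeal A) = q := by
      rw [← hq, ← hd]
    rw [hA, h4] at h3
    have h5 : q * q ^ 2 = q * Nat.card (IsLocalRing.maximalIdeal A) := by
      rw [← h3]
      ring
    exact (Nat.eq_of_mul_eq_mul_left hq0 h5).symm
  set Gk : Matrix (Fin N) (Fin N) (IsLocalRing.ResidueField A) :=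
    (IsLocalRing.residue A).mapMatrix G with hGk
  have hGkd : Gk.det ≠ 0 := by
    rw [hGk, ← RingHom.map_det]
    exact (hu.map _).ne_zero
  have hGks : Gkᵀ = Gk := by
    rw [hGk, RingHom.mapMatrix_apply, ← Matrix.transpose_map, hG]
  have hhalf := half h2k N hodd Gk.det hGkd (by
      have := cx3 (IsLocalRing.ResidueField A) N
      rwa [Nat.card_eq_fintype_card] at this)
  rw [hqk] at hhalf
  set NP : Finset (Matrix (Fin N) (Fin N) (IsLocalRing.ResidueField A)) :=
    Finset.univ.filter fun H => Hᵀ = H ∧ H.det ≠ 0 ∧ IsSquare (Gk.det * H.det) with hNP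
  obtain ⟨M, hM⟩ : ∃ M, M = N * (N + 1) / 2 := ⟨_, rfl⟩
  rw [← hM] at hhalf ⊢
  -- the lifts
  let σ : IsLocalRing.ResidueField A → A := Function.surjInv hsurj
  have hσ : ∀ x, IsLocalRing.residue A (σ x) = x := Function.surjInv_eq hsurj
  have hfib : NP.card * q ^ (2 * M) ≤
      {G' : Matrix (Fin N) (Fin N) A | ∃ a : Matrix (Fin N) (Fin N) A, IsUnit a.det ∧
          G' = aᵀ * G * a}.ncard := by
    have h3 : q ^ (2 * M) =
        (Finset.univ : Finset (Sym2 (Fin N) → IsLocalRing.maximalIdeal A)).card := by
      rw [Finset.card_univ, Fintype.card_fun, Sym2.card, Fintype.card_fin,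
        Nat.choose_two_right, Nat.add_sub_cancel, Nat.mul_comm (N + 1) N, ← hM, pow_mul,
        ← hI, Nat.card_eq_fintype_card]
    rw [h3, ← Finset.card_product, ← Set.ncard_coe_finset]
    refine Set.ncard_le_ncard_of_injOn (fun p : Matrix (Fin N) (Fin N)
      (IsLocalRing.ResidueField A) × (Sym2 (Fin N) → IsLocalRing.maximalIdeal A) =>
      Matrix.of fun i j => σ (p.1 i j) + (p.2 s(i, j) : A)) ?_ ?_ (Set.toFinite _)
    · rintro ⟨H, ψ⟩ hp
      rw [Finset.mem_coe, Finset.mem_product] at hp
      obtain ⟨hp1, -⟩ := hp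
      rw [hNP, Finset.mem_filter] at hp1
      obtain ⟨-, hH1, hH2, hH3⟩ := hp1
      simp only at hH1 hH2 hH3
      obtain ⟨ak, hak, hak2⟩ := cx4 (IsLocalRing.ResidueField A) h2k N Gk H hGks hH1 hGkd hH2 hH3
      set a : Matrix (Fin N) (Fin N) A := ak.map σ with ha
      have hamap : (IsLocalRing.residue A).mapMatrix a = ak := by
        ext i j
        rw [RingHom.mapMatrix_apply, Matrix.map_apply, ha, Matrix.map_apply, hσ]
      have hadet : IsUnit a.det := by
        have h4 : IsLocalRing.residue A a.det ≠ 0 := by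
          rw [RingHom.map_det, hamap]
          exact hak
        rwa [Ne, IsLocalRing.residue_eq_zero_iff, IsLocalRing.mem_maximalIdeal,
          mem_nonunits_iff, not_not] at h4
      have hsym : (Matrix.of fun i j : Fin N => σ (H i j) + (ψ s(i, j) : A))ᵀ =
          Matrix.of fun i j : Fin N => σ (H i j) + (ψ s(i, j) : A) := by
        ext i j
        rw [Matrix.transpose_apply, Matrix.of_apply, Matrix.of_apply, Sym2.eq_swap]
        have h5 : H j i = H i j := by
          conv_rhs => rw [← hH1]
          rw [Matrix.transpose_apply]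
        rw [h5]
      obtain ⟨b, hb, hb2⟩ := lift d N hd h2 (aᵀ * G * a)
        (Matrix.of fun i j : Fin N => σ (H i j) + (ψ s(i, j) : A))
        (by
          rw [Matrix.transpose_mul, Matrix.transpose_mul, Matrix.transpose_transpose, hG,
            Matrix.mul_assoc]) hsym
        (by
          rw [Matrix.det_mul, Matrix.det_mul, Matrix.det_transpose]
          exact (hadet.mul hu).mul hadet)
        (by
          intro i j
          rw [← hdvd, Matrix.of_apply, map_add, hσ]
          have h6 : IsLocalRing.residue A (ψ s(i, j) : A) = 0 := by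
            rw [IsLocalRing.residue_eq_zero_iff]
            exact (ψ s(i, j)).2
          rw [h6, add_zero]
          have h7 : (IsLocalRing.residue A).mapMatrix (aᵀ * G * a) = H := by
            rw [map_mul, map_mul, hamap, ← hGk, ← hak2]
            congr 2
            rw [← hamap, RingHom.mapMatrix_apply, RingHom.mapMatrix_apply,
              Matrix.transpose_map]
          rw [← h7, RingHom.mapMatrix_apply, Matrix.map_apply])
      refine ⟨a * b, ?_, ?_⟩
      · rw [Matrix.det_mul]
        exact hadet.mul hb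
      · show Matrix.of (fun i j : Fin N => σ (H i j) + (ψ s(i, j) : A)) = _
        rw [hb2, Matrix.transpose_mul]
        simp only [Matrix.mul_assoc]
    · rintro ⟨H, ψ⟩ - ⟨H', ψ'⟩ - heq
      simp only at heq
      have h4 : ∀ i j, σ (H i j) + (ψ s(i, j) : A) = σ (H' i j) + (ψ' s(i, j) : A) := by
        intro i j
        have := congrFun (congrFun heq i) j
        rwa [Matrix.of_apply, Matrix.of_apply] at this
      have h5 : H = H' := by
        ext i j
        have h6 := congrArg (IsLocalRing.residue A) (h4 i j)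
        rw [map_add, map_add, hσ, hσ, (IsLocalRing.residue_eq_zero_iff _).mpr (ψ s(i, j)).2,
          (IsLocalRing.residue_eq_zero_iff _).mpr (ψ' s(i, j)).2, add_zero, add_zero] at h6
        exact h6
      subst h5
      have h7 : ψ = ψ' := by
        funext z
        induction z using Sym2.ind with
        | _ i j =>
          have := h4 i j
          exact Subtype.ext (add_left_cancel this)
      rw [h7]
  calc (q - N) * q ^ (3 * M)
      = ((q - N) * q ^ M) * q ^ (2 * M) := by
        rw [mul_assoc, ← pow_add]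
        congr 2
        ring
    _ ≤ (2 * q * NP.card) * q ^ (2 * M) := Nat.mul_le_mul_right _ hhalf
    _ = 2 * q * (NP.card * q ^ (2 * M)) := by ring
    _ ≤ _ := Nat.mul_le_mul_left _ hfib


end Pool.PRK.FBA66

namespace Pool.PRK

open Polynomial Matrix Pool.HYP Pool.TOW Pool.AVS Pool.T1 IsDedekindDomain FBA66

theorem fba : FBAStmt := by
  intro A _ _ _ d q g hg hd hA hq h2 G hG hu
  have h := gen d q (2 * g + 1) ⟨g, rfl⟩ hd hA hq h2 G hG hu
  have hexp : (2 * g + 1) * (2 * g + 1 + 1) / 2 = (2 * g + 1) * (g + 1) := by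
    have : (2 * g + 1) * (2 * g + 1 + 1) = ((2 * g + 1) * (g + 1)) * 2 := by ring
    rw [this, Nat.mul_div_cancel _ (by norm_num)]
  rw [hexp] at h
  exact h

end Pool.PRK
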