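import Pool.Agent.H41.PRK.S5

/-!
# PRK: P3K
-/

set_option autoImplicit false

namespace Pool.PRK

open Polynomial Matrix Pool.HYP Pool.TOW Pool.AVS Pool.T1 IsDedekindDomain

theorem p3k : P3KStmt := by
  intro R _ _ P d hfin h2 hd hd2
  have hP0 : P.asIdeal ≠ ⊥ := P.ne_bot
  have hmax : P.asIdeal.IsMaximal := P.isMaximal
  set I : Ideal R := P.asIdeal ^ 3 with hI
  have hI1 : I ≠ ⊤ := by
    intro h
    have : I ≤ P.asIdeal := Ideal.pow_le_self (by norm_num)
    rw [h, top_le_iff] at this
    exact P.isPrime.ne_top this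
  have hNt : Nontrivial (R ⧸ I) := Ideal.Quotient.nontrivial_iff.mpr hI1
  -- the unit criterion
  have key : ∀ r : R, r ∉ P.asIdeal → IsUnit (Ideal.Quotient.mk I r) := by
    intro r hr
    have hcop : IsCoprime (Ideal.span {r}) P.asIdeal := by
      rw [Ideal.isCoprime_iff_sup_eq]
      by_contra hne
      apply hr
      have h := hmax.eq_of_le hne le_sup_right
      rw [h]
      exact Ideal.mem_sup_left (Ideal.mem_span_singleton_self r)
    have hcop3 : IsCoprime (Ideal.span {r}) I := hcop.pow_right
    rw [Ideal.isCoprime_iff_exists] at hcop3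
    obtain ⟨a, ha, b, hb, hab⟩ := hcop3
    obtain ⟨c, rfl⟩ := Ideal.mem_span_singleton'.mp ha
    refine IsUnit.of_mul_eq_one (Ideal.Quotient.mk I c) ?_
    rw [← map_mul, mul_comm r c]
    have : c * r = 1 - b := by rw [← hab]; ring
    rw [this, map_sub, map_one, Ideal.Quotient.eq_zero_iff_mem.mpr hb, sub_zero]
  -- P = (d) + P^3
  have hPd : P.asIdeal = Ideal.span {d} ⊔ I := by
    have hle : Ideal.span {d} ⊔ I ≤ P.asIdeal := by
      apply sup_le
      · rw [Ideal.span_le, Set.singleton_subset_iff]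
        exact hd
      · exact Ideal.pow_le_self (by norm_num)
    have hdvd : Ideal.span {d} ⊔ I ∣ P.asIdeal ^ 3 := by
      rw [Ideal.dvd_iff_le]
      exact le_sup_right
    have hprime : Prime P.asIdeal := P.prime
    obtain ⟨i, hi, hi2⟩ := (dvd_prime_pow hprime 3).mp hdvd
    rw [associated_iff_eq] at hi2
    rw [hi2]
    have h0 : i ≠ 0 := by
      rintro rfl
      rw [pow_zero, Ideal.one_eq_top] at hi2
      rw [hi2, top_le_iff] at hle
      exact P.isPrime.ne_top hle
    have h1 : i < 2 := by
      by_contra hcon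
      push Not at hcon
      apply hd2
      have : d ∈ Ideal.span {d} ⊔ I := Ideal.mem_sup_left (Ideal.mem_span_singleton_self d)
      rw [hi2] at this
      exact Ideal.pow_le_pow_right hcon this
    have : i = 1 := by omega
    rw [this, pow_one]
  have hmem : ∀ r : R, Ideal.Quotient.mk I r ∈ Ideal.span {Ideal.Quotient.mk I d} ↔
      r ∈ P.asIdeal := by
    intro r
    have hmap : Ideal.span {Ideal.Quotient.mk I d} =
        Ideal.map (Ideal.Quotient.mk I) (Ideal.span {d}) := by
      rw [Ideal.map_span, Set.image_singleton]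
    rw [hmap, ← Ideal.mem_comap, Ideal.comap_map_of_surjective _ Ideal.Quotient.mk_surjective,
      ← RingHom.ker_eq_comap_bot, Ideal.mk_ker, ← hPd]
  have hunit : ∀ x : R ⧸ I, IsUnit x ↔ x ∉ Ideal.span {Ideal.Quotient.mk I d} := by
    intro x
    obtain ⟨r, rfl⟩ := Ideal.Quotient.mk_surjective x
    rw [hmem]
    constructor
    · intro hu hr
      obtain ⟨y, hy⟩ := hu.exists_right_inv
      obtain ⟨s, rfl⟩ := Ideal.Quotient.mk_surjective y
      rw [← map_mul, ← map_one (Ideal.Quotient.mk I), Ideal.Quotient.eq] at hy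
      apply P.isPrime.ne_top
      rw [Ideal.eq_top_iff_one]
      have h3 : r * s - 1 ∈ P.asIdeal := Ideal.pow_le_self (by norm_num) hy
      have h4 : r * s ∈ P.asIdeal := P.asIdeal.mul_mem_right s hr
      have h5 := P.asIdeal.sub_mem h4 h3
      have h6 : r * s - (r * s - 1) = 1 := by ring
      rwa [h6] at h5
    · exact key r
  have hcard : Nat.card (R ⧸ I) = Nm P ^ 3 := by
    have h1 : Submodule.cardQuot (P.asIdeal ^ 3) = Submodule.cardQuot P.asIdeal ^ 3 :=
      cardQuot_pow_of_prime hP0
    have h2 : Submodule.cardQuot (P.asIdeal ^ 3) = Nat.card (R ⧸ P.asIdeal ^ 3) := rfl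
    have h3 : Submodule.cardQuot P.asIdeal = Nat.card (R ⧸ P.asIdeal) := rfl
    rw [h2, h3] at h1
    exact h1
  have hNm : 0 < Nm P := by
    unfold Nm
    exact Nat.card_pos
  have hfin3 : Finite (R ⧸ I) := by
    apply Nat.finite_of_card_ne_zero
    rw [hcard]
    positivity
  refine ⟨?_, hfin3, hunit, hcard, ?_, ?_⟩
  · apply IsLocalRing.of_nonunits_add
    intro a b ha hb
    rw [mem_nonunits_iff, hunit, not_not] at ha hb ⊢
    exact Ideal.add_mem _ ha hb
  · have hmap : Ideal.span {Ideal.Quotient.mk I d} =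
        Ideal.map (Ideal.Quotient.mk I) P.asIdeal := by
      ext x
      obtain ⟨r, rfl⟩ := Ideal.Quotient.mk_surjective x
      rw [hmem]
      constructor
      · exact Ideal.mem_map_of_mem _
      · intro hx
        rw [Ideal.mem_map_iff_of_surjective _ Ideal.Quotient.mk_surjective] at hx
        obtain ⟨s, hs, hs2⟩ := hx
        rw [Ideal.Quotient.eq] at hs2
        have h3 : s - r ∈ P.asIdeal := Ideal.pow_le_self (by norm_num) hs2
        have h4 := P.asIdeal.sub_mem hs h3
        have h6 : s - (s - r) = r := by ring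
        rwa [h6] at h4
    rw [hmap]
    have e := DoubleQuot.quotQuotEquivQuotOfLE (I := I) (J := P.asIdeal)
      (Ideal.pow_le_self (by norm_num))
    unfold Nm
    exact Nat.card_congr e.toEquiv
  · have := key 2 h2
    rwa [map_ofNat] at this

end Pool.PRK
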