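import Pool.Agent.H79.PRK.S6

/-!
# PRK: TWEK
-/

set_option autoImplicit false

namespace Pool.PRK

open Polynomial Matrix Pool.HYP Pool.TOW Pool.AVS Pool.T1 IsDedekindDomain

theorem twek : TWEKStmt := by
  intro R _ _ K _ _ _ O π hG hGRD D y d hd
  obtain ⟨n, -, -, hc, hL⟩ := hGRD R K O π hG d hd.1
  exact ⟨n, hd, (hL n).mpr le_rfl, hc⟩

end Pool.PRK
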