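import Pool.Agent.H41.PRK.S5

/-!
# PRK: TWOK
-/

set_option autoImplicit false

namespace Pool.PRK

open Polynomial Matrix Pool.HYP Pool.TOW Pool.AVS Pool.T1 IsDedekindDomain

theorem twok : TWOKStmt := by
  intro R _ _ K _ _ _ O π hG P h2
  obtain ⟨p, hp, hc⟩ := hG.char
  have hp2 : p ≠ 2 := by
    rintro rfl
    apply hG.two
    have := hc.cast_eq_zero
    exact_mod_cast this
  have hodd : p % 2 = 1 := by
    rcases hp.eq_two_or_odd with h | h
    · exact absurd h hp2
    · exact h
  have hpR : (p : R) = 0 := by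
    apply IsFractionRing.injective R K
    rw [map_natCast, map_zero]
    exact hc.cast_eq_zero
  apply P.isPrime.ne_top
  rw [Ideal.eq_top_iff_one]
  have h1 : (1 : R) = -(2 * ((p / 2 : ℕ) : R)) := by
    have h3 : p = 2 * (p / 2) + 1 := by omega
    have h4 : (p : R) = 2 * ((p / 2 : ℕ) : R) + 1 := by
      conv_lhs => rw [h3]
      push_cast
      ring
    rw [hpR] at h4
    linear_combination -h4
  rw [h1]
  exact P.asIdeal.neg_mem (P.asIdeal.mul_mem_right _ h2)

end Pool.PRK
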